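import Pool.Agent.LGD.Stmts

/-! Squad LGD, row SMA: an integer with an odd number of prime factors between consecutive squares. -/

set_option autoImplicit false

namespace Pool.Agent.LGD.H23

open Finset

theorem sma : SmaStmt := by
  intro n hn
  by_contra hcon
  push Not at hcon
  obtain ⟨h, hh⟩ : ∃ h : ℕ → ZMod 2, h = fun m => ((ArithmeticFunction.cardFactors m : ℕ) : ZMod 2) :=
    ⟨_, rfl⟩
  have hmul : ∀ a b : ℕ, 0 < a → 0 < b → h (a * b) = h a + h b := by
    intro a b ha hb
    simp only [hh]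
    rw [ArithmeticFunction.cardFactors_mul ha.ne' hb.ne']
    push_cast
    rfl
  have hz : ∀ m : ℕ, n ^ 2 ≤ m → m ≤ (n + 1) ^ 2 → h m = 0 := by
    intro m h1 h2
    rcases eq_or_lt_of_le h1 with h3 | h3
    · rw [← h3, pow_two, hmul n n hn hn]
      exact CharTwo.add_self_eq_zero _
    · rcases eq_or_lt_of_le h2 with h4 | h4
      · rw [h4, pow_two, hmul (n + 1) (n + 1) (by omega) (by omega)]
        exact CharTwo.add_self_eq_zero _
      · have h5 := hcon m h3 h4
        rw [Nat.not_odd_iff_even] at h5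
        rw [hh]
        exact (ZMod.natCast_eq_zero_iff_even).2 h5
  have h2 : h 2 = 1 := by
    rw [hh]
    simp only
    rw [ArithmeticFunction.cardFactors_apply_prime Nat.prime_two]
    norm_num
  -- two products in the interval
  have hA : ∀ u v : ℕ, 0 < u → 0 < v → n ^ 2 ≤ u * v → (u + 1) * v ≤ (n + 1) ^ 2 →
      h u = h v ∧ h (u + 1) = h v := by
    intro u v hu hv h3 h4
    have h5 : u * v ≤ (u + 1) * v := Nat.mul_le_mul_right _ (by omega)
    have h6 := hz (u * v) h3 (le_trans h5 h4)
    have h7 := hz ((u + 1) * v) (le_trans h3 h5) h4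
    rw [hmul _ _ hu hv] at h6
    rw [hmul _ _ (by omega) hv] at h7
    exact ⟨CharTwo.add_eq_zero.1 h6, CharTwo.add_eq_zero.1 h7⟩
  obtain ⟨t, ht⟩ : ∃ t : ℕ, t = Nat.sqrt (2 * n + 1) := ⟨_, rfl⟩
  have ht1 : t * t ≤ 2 * n + 1 := by rw [ht]; exact Nat.sqrt_le _
  have ht2 : 2 * n + 1 < (t + 1) * (t + 1) := by rw [ht]; exact Nat.lt_succ_sqrt _
  have ht0 : 1 ≤ t := by
    by_contra h3
    have h4 : t = 0 := by omega
    rw [h4] at ht2
    omega
  have htn : t ≤ n := by
    by_contra h3
    have h4 : n + 1 ≤ t := by omega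
    have h5 : (n + 1) * (n + 1) ≤ t * t := Nat.mul_le_mul h4 h4
    nlinarith
  -- small a
  have hB1 : ∀ a : ℕ, a ≤ n → a * a ≤ n + a → h (n + a) = h (n + 1 - a) ∧ h (n + a + 1) = h (n + 1 - a) := by
    intro a h3 h4
    obtain ⟨v, hv⟩ : ∃ v : ℕ, v + a = n + 1 := ⟨n + 1 - a, by omega⟩
    have hv' : n + 1 - a = v := by omega
    rw [hv']
    refine hA (n + a) v (by omega) (by omega) ?_ ?_
    · zify at h4 hv ⊢
      have h5 : (v : ℤ) = n + 1 - a := by linarith
      rw [h5]
      nlinarith
    · zify at h4 hv ⊢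
      have h5 : (v : ℤ) = n + 1 - a := by linarith
      rw [h5]
      nlinarith
  -- large a
  have hB2 : ∀ a : ℕ, a ≤ t + 1 → n + a < a * a →
      h (n + a) = h (n + 2 - a) ∧ h (n + a + 1) = h (n + 2 - a) := by
    intro a h3 h4
    obtain ⟨v, hv⟩ : ∃ v : ℕ, v + a = n + 2 := ⟨n + 2 - a, by omega⟩
    have hv' : n + 2 - a = v := by omega
    rw [hv']
    have ha1 : 1 ≤ a := by
      by_contra h5
      have h6 : a = 0 := by omega
      rw [h6] at h4
      omega
    obtain ⟨b, rfl⟩ : ∃ b : ℕ, a = b + 1 := ⟨a - 1, by omega⟩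
    have hb : b * b ≤ 2 * n + 1 := le_trans (Nat.mul_le_mul (by omega) (by omega)) ht1
    refine hA (n + (b + 1)) v (by omega) (by omega) ?_ ?_
    · zify at h4 hv hb ⊢
      have h5 : (v : ℤ) = n + 1 - b := by linarith
      rw [h5]
      nlinarith
    · zify at h4 hv hb ⊢
      have h5 : (v : ℤ) = n + 1 - b := by linarith
      rw [h5]
      nlinarith
  have hB : ∀ a : ℕ, a ≤ t + 1 → h (n + a + 1) = h (n + a) := by
    intro a h3
    by_cases h4 : a * a ≤ n + a
    · have h5 : a ≤ n := by
        by_contra h6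
        have h7 : n + 1 ≤ a := by omega
        nlinarith
      rw [(hB1 a h5 h4).1, (hB1 a h5 h4).2]
    · rw [(hB2 a h3 (by omega)).1, (hB2 a h3 (by omega)).2]
  have hC : ∀ a : ℕ, a ≤ t + 2 → h (n + a) = h n := by
    intro a
    induction a with
    | zero => intro _; rfl
    | succ k ih =>
      intro h3
      rw [← ih (by omega), ← hB k (by omega)]
      rfl
  have hD : ∀ x : ℕ, n + 1 ≤ x + t → x ≤ n + t + 2 → h x = h n := by
    intro x h3 h4
    rcases Nat.le_total n x with h5 | h5
    · have h6 := hC (x - n) (by omega)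
      rwa [show n + (x - n) = x from by omega] at h6
    · obtain ⟨b, hb⟩ : ∃ b : ℕ, b = n + 1 - x := ⟨_, rfl⟩
      by_cases h6 : b * b ≤ n + b
      · have h7 := (hB1 b (by omega) h6).1
        rw [show n + 1 - b = x from by omega] at h7
        rw [← h7]
        exact hC b (by omega)
      · have h7 := (hB2 (b + 1) (by omega) (by nlinarith)).1
        rw [show n + 2 - (b + 1) = x from by omega] at h7
        rw [← h7]
        exact hC (b + 1) (by omega)
  -- the second level
  have hE : ∀ p : ℕ, t ≤ 2 * p → p ≤ t → h p = h (p + 1) := by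
    intro p h3 h4
    have hp : 0 < p := by omega
    obtain ⟨q, hq⟩ : ∃ q : ℕ, q = (n - t) / p + 1 := ⟨_, rfl⟩
    have h5 : (n - t) / p * p ≤ n - t := Nat.div_mul_le_self _ _
    have h6 : n - t < ((n - t) / p + 1) * p := by
      have := Nat.lt_div_mul_add hp (a := n - t)
      nlinarith
    rw [← hq] at h6
    have h5' : (q - 1) * p ≤ n - t := by
      rw [hq]
      simpa using h5
    have hq0 : 0 < q := by rw [hq]; exact Nat.succ_pos _
    have hpq : q + p ≤ 2 * t + 2 := by
      by_contra h7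
      have h8 : 2 * t + 2 ≤ q - 1 + p := by omega
      obtain ⟨s, hs⟩ : ∃ s : ℕ, s = q - 1 := ⟨_, rfl⟩
      rw [← hs] at h8 h5'
      have h9 : s * p + t ≤ n := by omega
      have h10 : (2 * t + 2 - p) * p ≤ s * p := Nat.mul_le_mul_right _ (by omega)
      obtain ⟨w, hw⟩ : ∃ w : ℕ, w + p = 2 * t + 2 := ⟨2 * t + 2 - p, by omega⟩
      rw [show 2 * t + 2 - p = w from by omega] at h10
      have h11 : (w : ℤ) = 2 * t + 2 - p := by
        zify at hw
        linarith
      zify at h10 h9 h3 h4 ht2 ht0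
      rw [h11] at h10
      nlinarith
    have h12 : h (q * p) = h n := by
      refine hD _ (by omega) ?_
      have h13 : q * p = (q - 1) * p + p := by
        obtain ⟨s, hs⟩ : ∃ s : ℕ, q = s + 1 := ⟨q - 1, by omega⟩
        rw [hs]
        simp
        ring
      omega
    have h14 : h (q * (p + 1)) = h n := by
      have h13 : q * (p + 1) = (q - 1) * p + p + q := by
        obtain ⟨s, hs⟩ : ∃ s : ℕ, q = s + 1 := ⟨q - 1, by omega⟩
        rw [hs]
        simp
        ring
      have h15 : q * p ≤ q * (p + 1) := Nat.mul_le_mul_left _ (by omega)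
      refine hD _ (by omega) (by omega)
    rw [hmul _ _ hq0 hp] at h12
    rw [hmul _ _ hq0 (by omega)] at h14
    have h16 : h q + h p = h q + h (p + 1) := by rw [h12, h14]
    exact add_left_cancel h16
  obtain ⟨p0, hp0⟩ : ∃ p0 : ℕ, p0 = (t + 1) / 2 := ⟨_, rfl⟩
  have hF : ∀ k : ℕ, k ≤ p0 → h (p0 + k) = h p0 := by
    intro k
    induction k with
    | zero => intro _; rfl
    | succ k ih =>
      intro h3
      rw [← ih (by omega), hE (p0 + k) (by omega) (by omega)]
      rfl
  have h17 := hF p0 le_rfl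
  rw [show p0 + p0 = 2 * p0 from by omega, hmul 2 p0 (by omega) (by omega), h2] at h17
  have h18 : (1 : ZMod 2) = 0 := by
    have h19 : (1 : ZMod 2) + h p0 = 0 + h p0 := by rw [h17, zero_add]
    exact add_right_cancel h19
  exact absurd h18 (by decide)

end Pool.Agent.LGD.H23
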